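import Mathlib

namespace Pool.Agent.Q16.CPM

open Primrec

section
variable {β : Type*} [Primcodable β]

theorem ex_lt {R : ℕ → β → Prop} (hR : PrimrecRel R) {f : β → ℕ} (hf : Primrec f) :
    PrimrecPred fun y => ∃ x < f y, R x y :=
  (hR.exists_mem_list.comp (list_range.comp hf) Primrec.id).of_eq (by simp)

theorem all_lt {R : ℕ → β → Prop} (hR : PrimrecRel R) {f : β → ℕ} (hf : Primrec f) :
    PrimrecPred fun y => ∀ x < f y, R x y :=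
  (hR.forall_mem_list.comp (list_range.comp hf) Primrec.id).of_eq (by simp)

end

theorem mem_list : PrimrecRel fun (L : List ℕ) (x : ℕ) => x ∈ L := by
  have h : PrimrecRel (fun (a x : ℕ) => a = x) := Primrec.eq
  exact (h.exists_mem_list).of_eq (by intro L x; simp)

/-- bound for the gaps -/
def nB (G : List ℕ) : ℕ := G.foldr (fun x s => x + s) 0 + 2

def xB (n : ℕ) : ℕ := n + (n+1)*(n+1) - 1

def NB (n : ℕ) : ℕ := 2 * (xB n + 1) * Nat.factorial (xB n)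

def MB (G : List ℕ) : ℕ := NB (nB G) * (nB G + 1) + nB G + 2

theorem primrec_fact : Primrec Nat.factorial := by
  have h : Primrec₂ (fun (n s : ℕ) => (n + 1) * s) :=
    (nat_mul.comp (succ.comp fst) snd).to₂
  refine (nat_rec₁ 1 h).of_eq ?_
  intro n
  induction n with
  | zero => rfl
  | succ n ih => simp only [Nat.factorial_succ, ← ih]

theorem primrec_nB : Primrec nB := by
  have h : Primrec₂ (fun (_ : List ℕ) (p : ℕ × ℕ) => p.1 + p.2) :=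
    (nat_add.comp (fst.comp snd) (snd.comp snd)).to₂
  exact nat_add.comp (list_foldr Primrec.id (Primrec.const 0) h) (Primrec.const 2)

theorem primrec_xB : Primrec xB :=
  nat_sub.comp (nat_add.comp Primrec.id
    (nat_mul.comp (nat_add.comp Primrec.id (Primrec.const 1))
      (nat_add.comp Primrec.id (Primrec.const 1)))) (Primrec.const 1)

theorem primrec_NB : Primrec NB :=
  nat_mul.comp (nat_mul.comp (Primrec.const 2) (nat_add.comp primrec_xB (Primrec.const 1)))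
    (primrec_fact.comp primrec_xB)

theorem primrec_MB : Primrec MB :=
  nat_add.comp (nat_add.comp (nat_mul.comp (primrec_NB.comp primrec_nB)
    (nat_add.comp primrec_nB (Primrec.const 1))) primrec_nB) (Primrec.const 2)

/-- The pointwise test. -/
def R5 (x : ℕ) (y : List ℕ × ℕ × ℕ × ℕ × ℕ) : Prop :=
  x = 0 ∨ ((x ∉ y.1 ∧ y.2.1 * x % y.2.2.1 + y.2.2.2.2 ≤ y.2.2.2.1 * x) ∨
    (x ∈ y.1 ∧ ¬ (y.2.1 * x % y.2.2.1 + y.2.2.2.2 ≤ y.2.2.2.1 * x)))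

theorem primrec_R5 : PrimrecRel R5 := by
  have hx : Primrec (fun p : ℕ × (List ℕ × ℕ × ℕ × ℕ × ℕ) => p.1) := fst
  have hG : Primrec (fun p : ℕ × (List ℕ × ℕ × ℕ × ℕ × ℕ) => p.2.1) := fst.comp snd
  have ha : Primrec (fun p : ℕ × (List ℕ × ℕ × ℕ × ℕ × ℕ) => p.2.2.1) :=
    fst.comp (snd.comp snd)
  have hb : Primrec (fun p : ℕ × (List ℕ × ℕ × ℕ × ℕ × ℕ) => p.2.2.2.1) :=
    fst.comp (snd.comp (snd.comp snd))
  have hc : Primrec (fun p : ℕ × (List ℕ × ℕ × ℕ × ℕ × ℕ) => p.2.2.2.2.1) :=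
    fst.comp (snd.comp (snd.comp (snd.comp snd)))
  have hd : Primrec (fun p : ℕ × (List ℕ × ℕ × ℕ × ℕ × ℕ) => p.2.2.2.2.2) :=
    snd.comp (snd.comp (snd.comp (snd.comp snd)))
  have hle : PrimrecPred (fun p : ℕ × (List ℕ × ℕ × ℕ × ℕ × ℕ) =>
      p.2.2.1 * p.1 % p.2.2.2.1 + p.2.2.2.2.2 ≤ p.2.2.2.2.1 * p.1) :=
    nat_le.comp (nat_add.comp (nat_mod.comp (nat_mul.comp ha hx) hb) hd) (nat_mul.comp hc hx)
  have hmem : PrimrecPred (fun p : ℕ × (List ℕ × ℕ × ℕ × ℕ × ℕ) => p.1 ∈ p.2.1) :=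
    mem_list.comp hG hx
  have h0 : PrimrecPred (fun p : ℕ × (List ℕ × ℕ × ℕ × ℕ × ℕ) => p.1 = 0) :=
    Primrec.eq.comp hx (Primrec.const 0)
  exact h0.or ((hmem.not.and hle).or (hmem.and hle.not))

attribute [local irreducible] MB R5

/-- The bounded search. -/
def Test (G : List ℕ) : Prop :=
  ∃ a < MB G, ∃ b < MB G, ∃ c < MB G, ∃ d < MB G, b ≠ 0 ∧ c ≠ 0 ∧
    ∀ x < 2 * MB G, R5 x (G, a, b, c, d)

theorem primrec_Test : PrimrecPred Test := by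
  -- innermost
  have h4 : PrimrecPred (fun y : List ℕ × ℕ × ℕ × ℕ × ℕ => ∀ x < 2 * MB y.1, R5 x y) :=
    all_lt primrec_R5 (nat_mul.comp (Primrec.const 2) (primrec_MB.comp fst))
  have h4' : PrimrecPred (fun y : List ℕ × ℕ × ℕ × ℕ × ℕ =>
      y.2.2.1 ≠ 0 ∧ y.2.2.2.1 ≠ 0 ∧ ∀ x < 2 * MB y.1, R5 x y) := by
    have hb : PrimrecPred (fun y : List ℕ × ℕ × ℕ × ℕ × ℕ => y.2.2.1 = 0) :=
      Primrec.eq.comp (fst.comp (snd.comp snd)) (Primrec.const 0)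
    have hc : PrimrecPred (fun y : List ℕ × ℕ × ℕ × ℕ × ℕ => y.2.2.2.1 = 0) :=
      Primrec.eq.comp (fst.comp (snd.comp (snd.comp snd))) (Primrec.const 0)
    exact hb.not.and (hc.not.and h4)
  have r4 : PrimrecRel (fun (d : ℕ) (z : List ℕ × ℕ × ℕ × ℕ) =>
      z.2.2.1 ≠ 0 ∧ z.2.2.2 ≠ 0 ∧ ∀ x < 2 * MB z.1, R5 x (z.1, z.2.1, z.2.2.1, z.2.2.2, d)) := by
    have e : Primrec (fun p : ℕ × (List ℕ × ℕ × ℕ × ℕ) =>
        ((p.2.1, p.2.2.1, p.2.2.2.1, p.2.2.2.2, p.1) : List ℕ × ℕ × ℕ × ℕ × ℕ)) :=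
      Primrec.pair (fst.comp snd) (Primrec.pair (fst.comp (snd.comp snd))
        (Primrec.pair (fst.comp (snd.comp (snd.comp snd)))
          (Primrec.pair (snd.comp (snd.comp (snd.comp snd))) fst)))
    exact PrimrecPred.comp (f := fun p : ℕ × (List ℕ × ℕ × ℕ × ℕ) =>
        ((p.2.1, p.2.2.1, p.2.2.2.1, p.2.2.2.2, p.1) : List ℕ × ℕ × ℕ × ℕ × ℕ)) h4' e
  have h3 := ex_lt r4 (primrec_MB.comp fst)
  have r3 : PrimrecRel (fun (c : ℕ) (z : List ℕ × ℕ × ℕ) => ∃ d < MB z.1,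
      z.2.2 ≠ 0 ∧ c ≠ 0 ∧ ∀ x < 2 * MB z.1, R5 x (z.1, z.2.1, z.2.2, c, d)) := by
    have e : Primrec (fun p : ℕ × (List ℕ × ℕ × ℕ) =>
        ((p.2.1, p.2.2.1, p.2.2.2, p.1) : List ℕ × ℕ × ℕ × ℕ)) :=
      Primrec.pair (fst.comp snd) (Primrec.pair (fst.comp (snd.comp snd))
        (Primrec.pair (snd.comp (snd.comp snd)) fst))
    exact PrimrecPred.comp (f := fun p : ℕ × (List ℕ × ℕ × ℕ) =>
        ((p.2.1, p.2.2.1, p.2.2.2, p.1) : List ℕ × ℕ × ℕ × ℕ)) h3 e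
  have h2 := ex_lt r3 (primrec_MB.comp fst)
  have r2 : PrimrecRel (fun (b : ℕ) (z : List ℕ × ℕ) => ∃ c < MB z.1, ∃ d < MB z.1,
      b ≠ 0 ∧ c ≠ 0 ∧ ∀ x < 2 * MB z.1, R5 x (z.1, z.2, b, c, d)) := by
    have e : Primrec (fun p : ℕ × (List ℕ × ℕ) =>
        ((p.2.1, p.2.2, p.1) : List ℕ × ℕ × ℕ)) :=
      Primrec.pair (fst.comp snd) (Primrec.pair (snd.comp snd) fst)
    exact PrimrecPred.comp (f := fun p : ℕ × (List ℕ × ℕ) =>
        ((p.2.1, p.2.2, p.1) : List ℕ × ℕ × ℕ)) h2 e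
  have h1 := ex_lt r2 (primrec_MB.comp fst)
  have r1 : PrimrecRel (fun (a : ℕ) (z : List ℕ) => ∃ b < MB z, ∃ c < MB z, ∃ d < MB z,
      b ≠ 0 ∧ c ≠ 0 ∧ ∀ x < 2 * MB z, R5 x (z, a, b, c, d)) := by
    have e : Primrec (fun p : ℕ × (List ℕ) => ((p.2, p.1) : List ℕ × ℕ)) :=
      Primrec.pair snd fst
    exact PrimrecPred.comp (f := fun p : ℕ × (List ℕ) => ((p.2, p.1) : List ℕ × ℕ)) h1 e
  exact ex_lt r1 primrec_MB

end Pool.Agent.Q16.CPM
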