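import Mathlib

namespace Pool.Agent.Q16.CPM

/-- A lower bound for `γ` for non-ordinary semigroups. -/
theorem estimate (S : ℕ → Prop) (n : ℕ) (hn : ∀ x, n ≤ x → S x)
    (hno : ∃ x y, 1 ≤ x ∧ x < y ∧ S x ∧ ¬ S y)
    (α γ δ : ℚ) (hα0 : 0 ≤ α) (hα1 : α < 1) (hγ : 0 < γ) (hδ : 0 ≤ δ)
    (h : ∀ x : ℕ, 1 ≤ x → x ≤ n + 1 → (S x ↔ Int.fract (α * x) ≤ γ * x - δ)) :
    1 < γ * (n+1)^2 ∧ δ ≤ γ * n := by
  obtain ⟨x, y, hx1, hxy, hSx, hSy⟩ := hno
  have hyn : y < n := by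
    by_contra hcon
    exact hSy (hn y (by omega))
  have hn3 : 3 ≤ n := by omega
  have hnQ : (3:ℚ) ≤ n := by exact_mod_cast hn3
  have h1 := (h n (by omega) (by omega)).1 (hn n le_rfl)
  have h2 := (h (n+1) (by omega) le_rfl).1 (hn (n+1) (by omega))
  have hf1 := Int.fract_nonneg (α * n)
  refine ⟨?_, by linarith⟩
  by_contra hcon
  push Not at hcon
  set e := γ * (n+1) - δ with he
  push_cast at h2
  have he1 : e * (n+1) ≤ 1 := by
    have : δ * (n+1) ≥ 0 := by positivity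
    rw [he]; nlinarith
  have hf1e : Int.fract (α * n) < e := by rw [he]; linarith
  have he0 : 0 < e := lt_of_le_of_lt hf1 hf1e
  have he4 : e ≤ 1/4 := by nlinarith
  have hf2 := Int.fract_nonneg (α * (n+1))
  -- integer part
  set z : ℤ := ⌊α * (n+1)⌋ - ⌊α * n⌋ with hz
  have hαz : α = Int.fract (α * (n+1)) - Int.fract (α * n) + z := by
    rw [hz]
    push_cast
    have e1 := Int.floor_add_fract (α * (n+1))
    have e2 := Int.floor_add_fract (α * n)
    linarith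
  have hz1 : (z:ℚ) < 2 := by linarith
  have hz0 : (-1:ℚ) < z := by linarith
  have hz1' : z < 2 := by exact_mod_cast hz1
  have hz0' : -1 < z := by exact_mod_cast hz0
  have hz' : z = 0 ∨ z = 1 := by omega
  rcases hz' with hz' | hz'
  · -- α small
    rw [hz'] at hαz
    have hαe : α ≤ e := by push_cast at hαz; linarith
    have hfr : ∀ w : ℕ, w ≤ n → Int.fract (α * w) = α * w := by
      intro w hw
      rw [Int.fract_eq_self]
      constructor
      · positivity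
      · have hw' : (w:ℚ) ≤ n := by exact_mod_cast hw
        have hw0 : (0:ℚ) ≤ w := by positivity
        have : α * w ≤ e * n := mul_le_mul hαe hw' hw0 he0.le
        nlinarith
    rw [hfr n le_rfl] at h1
    have hle : α ≤ γ := by
      by_contra hc
      push Not at hc
      have : (γ - α) * n < 0 := mul_neg_of_neg_of_pos (by linarith) (by linarith)
      nlinarith
    apply hSy
    rw [h y (by omega) (by omega), hfr y (by omega)]
    have hx := (h x hx1 (by omega)).1 hSx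
    rw [hfr x (by omega)] at hx
    have hxy' : (x:ℚ) ≤ y := by exact_mod_cast hxy.le
    nlinarith [mul_nonneg (sub_nonneg.2 hle) (sub_nonneg.2 hxy')]
  · rw [hz'] at hαz
    have hαe : 1 - α < e := by push_cast at hαz; linarith
    have hfr : Int.fract (α * n) = 1 - (1 - α) * n := by
      have h3 : (1 - α) * n < 1 := by nlinarith
      have h4 : 0 < (1 - α) * n := mul_pos (by linarith) (by linarith)
      rw [Int.fract_eq_iff]
      refine ⟨by linarith, by linarith, (n:ℤ) - 1, ?_⟩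
      push_cast; ring
    rw [hfr] at hf1e
    nlinarith

theorem div_fact {q X : ℕ} (h1 : 1 ≤ q) (h2 : q ≤ X) : q ∣ Nat.factorial X :=
  Nat.dvd_factorial h1 h2

/-- The data extracted from a solution. -/
theorem approx (S : ℕ → Prop) (n : ℕ) (hn : ∀ x, n ≤ x → S x)
    (hno : ∃ x y, 1 ≤ x ∧ x < y ∧ S x ∧ ¬ S y)
    (α γ δ : ℚ) (hα0 : 0 ≤ α) (hα1 : α < 1) (hγ : 0 < γ) (hδ : 0 ≤ δ)
    (h : ∀ x : ℕ, 1 ≤ x → (S x ↔ Int.fract (α * x) ≤ γ * x - δ)) :
    ∀ X : ℕ, X + 1 = n + (n+1)^2 → ∀ D : ℕ, D = Nat.factorial X →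
    ∃ (k : ℕ → ℤ) (P Q : ℤ) (x0 : ℕ), 1 ≤ x0 ∧ x0 ≤ X ∧ S x0 ∧ k 1 = 0 ∧
      (∀ x, 0 ≤ k x ∧ k x ≤ x) ∧
      (∀ x : ℕ, 1 ≤ x → x ≤ X → P * x ≤ D * (k x + 1)) ∧
      (∀ x : ℕ, 1 ≤ x → D * k x + 1 ≤ P * x) ∧
      (∀ x y : ℕ, 1 ≤ x → x < y → y ≤ X → S x → ¬ S y → Q * ((y:ℤ) - x) ≤ D * (k x - k y)) ∧
      (∀ x y : ℕ, 1 ≤ y → y < x → S x → ¬ S y → D * (k y - k x) + 1 ≤ Q * ((x:ℤ) - y)) ∧
      (∀ x : ℕ, 1 ≤ x → S x → 1 ≤ Q * x + D * k x) ∧
      1 ≤ P + Q ∧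
      D * (1 + k x0) + 1 ≤ P * (X+1) + Q * ((X:ℤ) + 1 - x0) ∧ Q ≤ 0 := by
  classical
  intro X hX D hD
  have hn1 : 1 ≤ n := by
    obtain ⟨x, y, hx1, hxy, hSx, hSy⟩ := hno
    by_contra hcon
    exact hSy (hn y (by omega))
  have hnX : n + 1 ≤ X := by nlinarith
  have hD0 : 0 < D := by rw [hD]; exact Nat.factorial_pos X
  set k : ℕ → ℤ := fun x => ⌊α * x⌋ with hk
  have hk1 : ∀ x : ℕ, (k x : ℚ) ≤ α * x := fun x => Int.floor_le _
  have hk2 : ∀ x : ℕ, α * x < k x + 1 := fun x => Int.lt_floor_add_one _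
  set l : ℚ := γ - α with hl
  have hS : ∀ x : ℕ, 1 ≤ x → (S x ↔ δ ≤ l * x + k x) := by
    intro x hx
    have e : k x = ⌊α * x⌋ := rfl
    rw [h x hx, Int.fract, hl, e]
    constructor
    · intro h'; linarith
    · intro h'; linarith
  -- the point `α₁ = P / D`
  obtain ⟨x1, hx1mem, hx1min⟩ := Finset.exists_min_image (Finset.Icc 1 X)
    (fun x : ℕ => ((k x : ℚ) + 1) / x) ⟨1, by rw [Finset.mem_Icc]; omega⟩
  rw [Finset.mem_Icc] at hx1mem
  obtain ⟨q1, hq1⟩ := div_fact hx1mem.1 hx1mem.2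
  set P : ℤ := (k x1 + 1) * q1 with hP
  have hPx1 : P * x1 = D * (k x1 + 1) := by
    rw [hP, hD, hq1]; push_cast; ring
  have hPD : (P : ℚ) / D = ((k x1 : ℚ) + 1) / x1 := by
    have h1 : (D:ℚ) ≠ 0 := by positivity
    have h2 : (x1:ℚ) ≠ 0 := by
      have : 0 < x1 := hx1mem.1
      positivity
    rw [div_eq_div_iff h1 h2]
    have := congrArg (Int.cast : ℤ → ℚ) hPx1
    push_cast at this
    linarith
  have hDQ : (0:ℚ) < D := by exact_mod_cast hD0
  -- α < P/D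
  have hαP : α * D < P := by
    have h2 : (0:ℚ) < x1 := by exact_mod_cast hx1mem.1
    have h3 : α * x1 < k x1 + 1 := hk2 x1
    have h4 : (P:ℚ) * x1 = D * (k x1 + 1) := by
      have := congrArg (Int.cast : ℤ → ℚ) hPx1
      push_cast at this; linarith
    have h5 : (α * D) * x1 < P * x1 := by rw [h4]; nlinarith
    exact lt_of_mul_lt_mul_right h5 h2.le
  have hPup : ∀ x : ℕ, 1 ≤ x → x ≤ X → P * x ≤ D * (k x + 1) := by
    intro x hx hxX
    have h1 : ((k x1 : ℚ) + 1) / x1 ≤ ((k x : ℚ) + 1) / x :=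
      hx1min x (by rw [Finset.mem_Icc]; exact ⟨hx, hxX⟩)
    rw [← hPD] at h1
    have hx0 : (0:ℚ) < x := by exact_mod_cast hx
    rw [div_le_div_iff₀ hDQ hx0] at h1
    have : ((P * x : ℤ):ℚ) ≤ ((D * (k x + 1) : ℤ) : ℚ) := by push_cast; linarith
    exact_mod_cast this
  -- the point `U = Q / D`
  have hpairs : ((Finset.Icc 1 X ×ˢ Finset.Icc 1 X).filter
      (fun p : ℕ × ℕ => p.1 < p.2 ∧ S p.1 ∧ ¬ S p.2)).Nonempty := by
    obtain ⟨x, y, hx1, hxy, hSx, hSy⟩ := hno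
    have hyn : y < n := by
      by_contra hcon
      exact hSy (hn y (by omega))
    refine ⟨(x, y), ?_⟩
    rw [Finset.mem_filter, Finset.mem_product, Finset.mem_Icc, Finset.mem_Icc]
    exact ⟨⟨⟨hx1, by simp only; omega⟩, ⟨by simp only; omega, by simp only; omega⟩⟩, hxy, hSx, hSy⟩
  obtain ⟨⟨u, v⟩, huv, huvmin⟩ := Finset.exists_min_image _
    (fun p : ℕ × ℕ => ((k p.1 : ℚ) - k p.2) / ((p.2 : ℚ) - p.1)) hpairs
  rw [Finset.mem_filter, Finset.mem_product, Finset.mem_Icc, Finset.mem_Icc] at huv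
  simp only at huv huvmin
  obtain ⟨⟨⟨hu1, huX⟩, ⟨hv1, hvX⟩⟩, huvlt, hSu, hSv⟩ := huv
  obtain ⟨q2, hq2⟩ := div_fact (show 1 ≤ v - u by omega) (show v - u ≤ X by omega)
  set Q : ℤ := (k u - k v) * q2 with hQ
  have hQuv : Q * ((v:ℤ) - u) = D * (k u - k v) := by
    rw [hQ, hD, hq2]
    push_cast [Nat.cast_sub huvlt.le]; ring
  have huvQ : (0:ℚ) < (v:ℚ) - u := by
    have : (u:ℚ) < v := by exact_mod_cast huvlt
    linarith
  have hQuvQ : (Q:ℚ) * ((v:ℚ) - u) = D * (k u - k v) := by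
    have := congrArg (Int.cast : ℤ → ℚ) hQuv
    push_cast at this; linarith
  have hQD : (Q : ℚ) / D = ((k u : ℚ) - k v) / ((v:ℚ) - u) := by
    rw [div_eq_div_iff hDQ.ne' huvQ.ne']
    linarith
  have hQup : ∀ x y : ℕ, 1 ≤ x → x < y → y ≤ X → S x → ¬ S y →
      Q * ((y:ℤ) - x) ≤ D * (k x - k y) := by
    intro x y hx hxy hyX hSx hSy
    have h1 := huvmin (x, y) (by
      rw [Finset.mem_filter, Finset.mem_product, Finset.mem_Icc, Finset.mem_Icc]
      exact ⟨⟨⟨hx, by simp only; omega⟩, ⟨by simp only; omega, by simp only; omega⟩⟩, hxy, hSx, hSy⟩)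
    simp only at h1
    rw [← hQD] at h1
    have hx0 : (0:ℚ) < (y:ℚ) - x := by
      have : (x:ℚ) < y := by exact_mod_cast hxy
      linarith
    rw [div_le_div_iff₀ hDQ hx0] at h1
    have : ((Q * ((y:ℤ) - x) : ℤ):ℚ) ≤ ((D * (k x - k y) : ℤ) : ℚ) := by push_cast; linarith
    exact_mod_cast this
  -- λ < Q/D
  have hlQ : l * D < Q := by
    have h1 := (hS u hu1).1 hSu
    have h2 : ¬ (δ ≤ l * v + k v) := fun hc => hSv ((hS v hv1).2 hc)
    push Not at h2
    have h3 : l * ((v:ℚ) - u) < k u - k v := by linarith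
    have h5 : (l * D) * ((v:ℚ) - u) < Q * ((v:ℚ) - u) := by rw [hQuvQ]; nlinarith
    exact lt_of_mul_lt_mul_right h5 huvQ.le
  -- the optimal δ
  have hne : ((Finset.Icc 1 X).filter S).Nonempty :=
    ⟨n, by rw [Finset.mem_filter, Finset.mem_Icc]; exact ⟨⟨hn1, by omega⟩, hn n le_rfl⟩⟩
  obtain ⟨x0, hx0mem, hx0min⟩ := Finset.exists_min_image _
    (fun x : ℕ => l * x + k x) hne
  rw [Finset.mem_filter, Finset.mem_Icc] at hx0mem
  obtain ⟨⟨hx01, hx0X⟩, hSx0⟩ := hx0mem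
  have hδ2 : δ ≤ l * x0 + k x0 := (hS x0 hx01).1 hSx0
  have hest := estimate S n hn hno α γ (l * x0 + k x0) hα0 hα1 hγ (by linarith) (by
    intro x hx hxn
    have h1 : Int.fract (α * x) ≤ γ * x - (l * x0 + k x0) ↔ l * x0 + k x0 ≤ l * x + k x := by
      have e : k x = ⌊α * x⌋ := rfl
      rw [Int.fract, hl, e]
      constructor
      · intro h'; linarith
      · intro h'; linarith
    rw [h1]
    constructor
    · intro hSx
      exact hx0min x (by rw [Finset.mem_filter, Finset.mem_Icc]; exact ⟨⟨hx, by omega⟩, hSx⟩)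
    · intro h2
      rw [hS x hx]; linarith)
  have hv : α * (X+1) + l * ((X:ℚ) + 1 - x0) > 1 + k x0 := by
    obtain ⟨e1, e2⟩ := hest
    have e3 : ((X:ℚ) + 1) = n + (n+1)^2 := by exact_mod_cast hX
    have e4 : γ * ((X:ℚ)+1) - (l * x0 + k x0) > 1 := by rw [e3]; linarith
    have e5 : γ = l + α := by rw [hl]; ring
    rw [e5] at e4
    linarith
  -- integer inequalities
  have hPlow : ∀ x : ℕ, 1 ≤ x → D * k x + 1 ≤ P * x := by
    intro x hx
    have hx0 : (0:ℚ) < x := by exact_mod_cast hx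
    have h1 : (D:ℚ) * k x < P * x := by
      have := hk1 x
      nlinarith
    have h2 : (D:ℤ) * k x < P * x := by exact_mod_cast h1
    omega
  have hQlow : ∀ x y : ℕ, 1 ≤ y → y < x → S x → ¬ S y →
      D * (k y - k x) + 1 ≤ Q * ((x:ℤ) - y) := by
    intro x y hy hyx hSx hSy
    have h1 := (hS x (by omega)).1 hSx
    have h2 : ¬ (δ ≤ l * y + k y) := fun hc => hSy ((hS y hy).2 hc)
    push Not at h2
    have h3 : (k y : ℚ) - k x < l * ((x:ℚ) - y) := by linarith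
    have h0 : (0:ℚ) < (x:ℚ) - y := by
      have : (y:ℚ) < x := by exact_mod_cast hyx
      linarith
    have h4 : (D:ℚ) * (k y - k x) < Q * ((x:ℚ) - y) := by
      have : (D:ℚ) * (k y - k x) < D * (l * ((x:ℚ) - y)) := by
        apply mul_lt_mul_of_pos_left h3 hDQ
      nlinarith
    have h5 : (D:ℤ) * (k y - k x) < Q * ((x:ℤ) - y) := by exact_mod_cast h4
    omega
  have hQS : ∀ x : ℕ, 1 ≤ x → S x → 1 ≤ Q * x + D * k x := by
    intro x hx hSx
    have h1 := (hS x hx).1 hSx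
    have hx0 : (0:ℚ) < x := by exact_mod_cast hx
    have h2 : (0:ℚ) < Q * x + D * k x := by
      have h3 : 0 ≤ D * (l * x + k x) := mul_nonneg hDQ.le (by linarith)
      nlinarith
    have h5 : (0:ℤ) < Q * x + D * k x := by exact_mod_cast h2
    omega
  have hPQ : 1 ≤ P + Q := by
    have h1 : (0:ℚ) < P + Q := by
      have : 0 < γ * D := mul_pos hγ hDQ
      have e5 : γ = l + α := by rw [hl]; ring
      rw [e5] at this
      linarith
    have h2 : (0:ℤ) < P + Q := by exact_mod_cast h1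
    omega
  have hV : D * (1 + k x0) + 1 ≤ P * (X+1) + Q * ((X:ℤ) + 1 - x0) := by
    have h0 : (0:ℚ) < (X:ℚ) + 1 - x0 := by
      have : (x0:ℚ) ≤ X := by exact_mod_cast hx0X
      linarith
    have h00 : (0:ℚ) < (X:ℚ) + 1 := by positivity
    have h1 : (D:ℚ) * (1 + k x0) < P * (X+1) + Q * ((X:ℚ) + 1 - x0) := by
      have h2 : (D:ℚ) * (1 + k x0) < D * (α * (X+1) + l * ((X:ℚ) + 1 - x0)) :=
        mul_lt_mul_of_pos_left hv hDQ
      nlinarith [mul_lt_mul_of_pos_right hαP h00, mul_lt_mul_of_pos_right hlQ h0]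
    have h5 : (D:ℤ) * (1 + k x0) < P * (X+1) + Q * ((X:ℤ) + 1 - x0) := by exact_mod_cast h1
    omega
  have hk0 : ∀ x : ℕ, 0 ≤ k x := fun x => Int.floor_nonneg.2 (by positivity)
  have hkx : ∀ x : ℕ, k x ≤ x := by
    intro x
    have h1 := hk1 x
    have h2 : α * x ≤ x := by
      have : (0:ℚ) ≤ x := by positivity
      nlinarith
    have : (k x : ℚ) ≤ (x:ℤ) := by push_cast; linarith
    exact_mod_cast this
  have hk10 : k 1 = 0 := by
    rw [hk]
    simp only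
    rw [Int.floor_eq_zero_iff]
    constructor
    · simpa using hα0
    · simpa using hα1
  have hkuv : k u ≤ k v := by
    rw [hk]
    apply Int.floor_le_floor
    have : (u:ℚ) ≤ v := by exact_mod_cast huvlt.le
    exact mul_le_mul_of_nonneg_left this hα0
  have hQ0 : Q ≤ 0 := by
    rw [hQ]
    apply mul_nonpos_of_nonpos_of_nonneg
    · omega
    · positivity
  exact ⟨k, P, Q, x0, hx01, hx0X, hSx0, hk10, fun x => ⟨hk0 x, hkx x⟩, hPup, hPlow, hQup, hQlow,
    hQS, hPQ, hV, hQ0⟩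

end Pool.Agent.Q16.CPM
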