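import Pool.Agent.Q16.CPM.Core

namespace Pool.Agent.Q16.CPM

theorem mod_eq_of (a x N : ℕ) (k : ℤ) (h1 : (N:ℤ) * k ≤ a * x) (h2 : (a:ℤ) * x < N * (k + 1)) :
    ((a * x % N : ℕ) : ℤ) = a * x - N * k := by
  have hr : 0 ≤ (a:ℤ) * x - N * k := by linarith
  have hr' : (a:ℤ) * x - N * k < N := by linarith
  push_cast
  have h3 : (a:ℤ) * x = ((a:ℤ) * x - N * k) + N * k := by ring
  conv_lhs => rw [h3]
  rw [Int.add_mul_emod_self_left, Int.emod_eq_of_lt hr hr']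

/-- From integer data to a small solution. -/
theorem small (S : ℕ → Prop) (n : ℕ) (hn : ∀ x, n ≤ x → S x) (hn1 : 1 ≤ n) (X D N T : ℕ)
    (hnX : n ≤ X)
    (hD0 : 0 < D) (hT : T = 2 * (X+1)) (hN : N = T * D)
    (k : ℕ → ℤ) (P Q : ℤ) (x0 : ℕ) (hx01 : 1 ≤ x0) (hx0X : x0 ≤ X) (hSx0 : S x0) (hk1 : k 1 = 0)
    (hk : ∀ x, 0 ≤ k x ∧ k x ≤ x)
    (hPup : ∀ x : ℕ, 1 ≤ x → x ≤ X → P * x ≤ D * (k x + 1))
    (hPlow : ∀ x : ℕ, 1 ≤ x → D * k x + 1 ≤ P * x)
    (hQup : ∀ x y : ℕ, 1 ≤ x → x < y → y ≤ X → S x → ¬ S y → Q * ((y:ℤ) - x) ≤ D * (k x - k y))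
    (hQlow : ∀ x y : ℕ, 1 ≤ y → y < x → S x → ¬ S y → D * (k y - k x) + 1 ≤ Q * ((x:ℤ) - y))
    (hQS : ∀ x : ℕ, 1 ≤ x → S x → 1 ≤ Q * x + D * k x)
    (hPQ : 1 ≤ P + Q)
    (hV : D * (1 + k x0) + 1 ≤ P * (X+1) + Q * ((X:ℤ) + 1 - x0)) (hQ0 : Q ≤ 0) :
    ∃ a c d : ℕ, a < N ∧ 0 < c ∧ c < N ∧ d ≤ N * n ∧
      ∀ x, 1 ≤ x → (S x ↔ a * x % N + d ≤ c * x) := by
  classical
  have hTZ : (T:ℤ) = 2 * (X + 1) := by rw [hT]; push_cast; ring
  have hNZ : (N:ℤ) = T * D := by rw [hN]; push_cast; ring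
  have hT0 : (0:ℤ) < T := by rw [hTZ]; positivity
  set l' : ℤ := T * Q - 1 with hl'
  have hPup1 := hPup 1 le_rfl (by omega)
  have hPlow1 := hPlow 1 le_rfl
  rw [hk1] at hPup1 hPlow1
  push_cast at hPup1 hPlow1
  have hP1 : 1 ≤ P := by linarith
  have hPD : P ≤ D := by linarith
  obtain ⟨a, ha⟩ := Int.eq_ofNat_of_zero_le (show 0 ≤ T * P - 1 by nlinarith)
  have ha' : (a:ℤ) = T * P - 1 := by rw [ha]
  obtain ⟨c, hc⟩ := Int.eq_ofNat_of_zero_le (show 0 ≤ T * (P + Q) - 2 by nlinarith)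
  have hc' : (c:ℤ) = a + l' := by rw [ha', hl', show (c:ℤ) = T * (P + Q) - 2 by rw [hc]]; ring
  -- minimal point
  have hne : ((Finset.Icc 1 X).filter S).Nonempty :=
    ⟨n, by rw [Finset.mem_filter, Finset.mem_Icc]; exact ⟨⟨hn1, by omega⟩, hn n le_rfl⟩⟩
  obtain ⟨w, hwmem, hwmin⟩ := Finset.exists_min_image _
    (fun x : ℕ => l' * x + N * k x) hne
  rw [Finset.mem_filter, Finset.mem_Icc] at hwmem
  obtain ⟨⟨hw1, hwX⟩, hSw⟩ := hwmem
  have hwmin' : ∀ x : ℕ, 1 ≤ x → x ≤ X → S x → l' * w + N * k w ≤ l' * x + N * k x := by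
    intro x hx hxX hSx
    exact hwmin x (by rw [Finset.mem_filter, Finset.mem_Icc]; exact ⟨⟨hx, hxX⟩, hSx⟩)
  have hd0 : 0 ≤ l' * w + N * k w := by
    have h1 := hQS w hw1 hSw
    have h2 : (w:ℤ) ≤ X := by exact_mod_cast hwX
    rw [hl', hNZ]
    nlinarith
  obtain ⟨d, hd⟩ := Int.eq_ofNat_of_zero_le hd0
  have hd' : (d:ℤ) = l' * w + N * k w := by rw [hd]
  have hmodle : ∀ x : ℕ, 1 ≤ x → x ≤ X → ((a * x % N : ℕ) : ℤ) = a * x - N * k x := by
    intro x hx hxX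
    have h1 := hPlow x hx
    have h2 := hPup x hx hxX
    have h3 : (x:ℤ) ≤ X := by exact_mod_cast hxX
    have h4 : (1:ℤ) ≤ x := by exact_mod_cast hx
    apply mod_eq_of
    · rw [ha', hNZ]; nlinarith
    · rw [ha', hNZ]; nlinarith
  refine ⟨a, c, d, ?_, ?_, ?_, ?_, ?_⟩
  · have : (a:ℤ) < N := by rw [ha', hNZ]; nlinarith
    exact_mod_cast this
  · have : (0:ℤ) < c := by rw [hc', ha', hl']; nlinarith
    exact_mod_cast this
  · have : (c:ℤ) < N := by rw [hc', ha', hl', hNZ]; nlinarith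
    exact_mod_cast this
  · have h1 := hwmin' n hn1 hnX (hn n le_rfl)
    have h2 := (hk n).2
    have h3 : (0:ℤ) ≤ n := by positivity
    have h4 : l' ≤ 0 := by rw [hl']; nlinarith
    have h5 : (0:ℤ) ≤ N := by positivity
    have : (d:ℤ) ≤ N * n := by rw [hd']; nlinarith
    exact_mod_cast this
  · intro x hx
    by_cases hxX : x ≤ X
    · have hm := hmodle x hx hxX
      have key : (a * x % N + d ≤ c * x) ↔ l' * w + N * k w ≤ l' * x + N * k x := by
        zify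
        push_cast at hm
        rw [hm, hc', hd']
        constructor <;> intro h' <;> linarith
      rw [key]
      constructor
      · intro hSx
        exact hwmin' x hx hxX hSx
      · intro h1
        by_contra hSx
        rcases lt_trichotomy w x with hlt | heq | hgt
        · have h2 := hQup w x hw1 hlt hxX hSw hSx
          have h3 : (w:ℤ) < x := by exact_mod_cast hlt
          rw [hl', hNZ] at h1
          nlinarith
        · rw [heq] at hSw; exact hSx hSw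
        · have h2 := hQlow w x hx hgt hSw hSx
          have h3 : (w:ℤ) ≤ X := by exact_mod_cast hwX
          have h4 : (1:ℤ) ≤ x := by exact_mod_cast hx
          rw [hl', hNZ] at h1
          nlinarith
    · push Not at hxX
      have hSx : S x := hn x (by omega)
      refine ⟨fun _ => ?_, fun _ => hSx⟩
      have hlt := Nat.mod_lt (a * x) (show 0 < N by rw [hN]; exact Nat.mul_pos (by omega) hD0)
      have h1 := hwmin' x0 hx01 hx0X hSx0
      have h3 : (N:ℤ) * (1 + k x0) ≤ a * (X+1) + l' * ((X:ℤ) + 1 - x0) := by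
        rw [ha', hl', hNZ]
        have h4 : (1:ℤ) ≤ x0 := by exact_mod_cast hx01
        nlinarith
      have h5 : (N:ℤ) + d ≤ c * (X+1) := by
        rw [hd', hc']; linarith
      have h6 : (c:ℤ) * (X+1) ≤ c * x := by
        have : (X:ℤ) + 1 ≤ x := by exact_mod_cast hxX
        exact mul_le_mul_of_nonneg_left this (by positivity)
      have h7 : N + d ≤ c * x := by
        have : ((N + d : ℕ):ℤ) ≤ ((c * x : ℕ) : ℤ) := by push_cast; linarith
        exact_mod_cast this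
      omega

end Pool.Agent.Q16.CPM
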